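import Pool.Agent.MP_9ab903_nt.GE.E1

set_option autoImplicit false

open Polynomial IsDedekindDomain
open CM27 CMT
open scoped Classical

/-!
# Local Euler factors: bad reduction
-/

namespace GE

/-- the polynomial whose roots are the slopes of the tangents at the node, times `c₄` -/
noncomputable def nodePoly {k : Type} [CommRing k] (W : WeierstrassCurve k) (x : k) : k :=
  W.c₄ * x ^ 2 + W.a₁ * W.c₄ * x - (54 * W.b₆ - 3 * W.b₂ * W.b₄ + W.a₂ * W.c₄)

theorem nodePoly_smul {k : Type} [CommRing k] (D : WeierstrassCurve.VariableChange k)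
    (W : WeierstrassCurve k) (x : k) :
    nodePoly (D • W) x = ((D.u⁻¹ : kˣ) : k) ^ 6 * nodePoly W ((D.u : k) * x + D.s) := by
  have huu : ((D.u⁻¹ : kˣ) : k) * (D.u : k) = 1 := by simp
  simp only [nodePoly, WeierstrassCurve.variableChange_c₄, WeierstrassCurve.variableChange_a₁,
    WeierstrassCurve.variableChange_a₂, WeierstrassCurve.variableChange_b₂,
    WeierstrassCurve.variableChange_b₄, WeierstrassCurve.variableChange_b₆]
  set V := ((D.u⁻¹ : kˣ) : k) with hV
  set U := (D.u : k) with hU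
  have h2 : V ^ 2 * U ^ 2 = 1 := by rw [← mul_pow, huu, one_pow]
  have e1 : V ^ 6 * (W.c₄ * (U * x + D.s) ^ 2 + W.a₁ * W.c₄ * (U * x + D.s) -
      (54 * W.b₆ - 3 * W.b₂ * W.b₄ + W.a₂ * W.c₄)) =
      V ^ 4 * W.c₄ * x ^ 2 * (V ^ 2 * U ^ 2) + V ^ 5 * (W.a₁ + 2 * D.s) * W.c₄ * x * (V * U) +
      V ^ 6 * (W.c₄ * D.s ^ 2 + W.a₁ * W.c₄ * D.s -
        (54 * W.b₆ - 3 * W.b₂ * W.b₄ + W.a₂ * W.c₄)) := by ring
  rw [e1, h2, huu]
  simp only [WeierstrassCurve.c₄]
  ring

section
variable (A : Type) [CommRing A] [IsDomain A] [IsDiscreteValuationRing A]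
  {K : Type} [Field K] [Algebra A K] [IsFractionRing A K]

/-- what is needed for a curve with integral equation `W`, `c₄` a unit, `Δ` not a unit -/
theorem mult_data (W : WeierstrassCurve A) (hΔ0 : W.Δ ≠ 0) (hΔ : ¬ IsUnit W.Δ)
    (h4 : IsUnit W.c₄) (C : WeierstrassCurve.VariableChange K) :
    ((C • W.map (algebraMap A K)).minimal A).HasMultiplicativeReduction A ∧
    ∃ D : WeierstrassCurve.VariableChange A,
      D • W = ((C • W.map (algebraMap A K)).minimal A).integralModel A := by
  have hinj : Function.Injective (algebraMap A K) := IsFractionRing.injective A K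
  obtain ⟨T, hT, hTm⟩ := exists_T A (W.map (algebraMap A K)) C
  have hint := isIntegral_map A (K := K) W
  have hu := unit_of_c₄ A (W.map (algebraMap A K)) (by
      rw [WeierstrassCurve.map_Δ]
      exact (map_ne_zero_iff _ hinj).2 hΔ0) (by
      rw [WeierstrassCurve.map_c₄]
      exact val_algebraMap_unit A _ h4) T hTm
  obtain ⟨D, hD⟩ := exists_D A W C T hT hu
  refine ⟨⟨?_, ?_⟩, D, hD⟩
  · rw [← WeierstrassCurve.integralModel_Δ_eq A, ← hD]
    obtain ⟨c, hc, h1⟩ := Δ_D D W
    rw [h1]
    refine (val_int A (W.map (algebraMap A K)) _ (c * W.Δ) rfl).2.2 ?_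
    intro h
    exact hΔ (isUnit_of_mul_isUnit_right h)
  · rw [← WeierstrassCurve.integralModel_c₄_eq A, ← hD]
    obtain ⟨c, hc, h1⟩ := c₄_D D W
    rw [h1]
    exact val_algebraMap_unit A _ (hc.mul h4)

theorem not_good {W : WeierstrassCurve K} (h : W.HasMultiplicativeReduction A) :
    ¬ W.HasGoodReduction A := h.not_hasGoodReduction

/-- the polynomial of Mathlib -/
theorem split_iff (I : WeierstrassCurve A) (h4 : IsUnit I.c₄) :
    (Polynomial.map (algebraMap A (IsLocalRing.ResidueField A))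
      (C I.c₄ * X ^ 2 + C (I.a₁ * I.c₄) * X -
        C (54 * I.b₆ - 3 * I.b₂ * I.b₄ + I.a₂ * I.c₄))).Splits ↔
    ∃ x : IsLocalRing.ResidueField A, nodePoly (I.map (IsLocalRing.residue A)) x = 0 := by
  have hlc : IsLocalRing.residue A I.c₄ ≠ 0 := (h4.map (IsLocalRing.residue A)).ne_zero
  have hmap : Polynomial.map (algebraMap A (IsLocalRing.ResidueField A))
      (C I.c₄ * X ^ 2 + C (I.a₁ * I.c₄) * X -
        C (54 * I.b₆ - 3 * I.b₂ * I.b₄ + I.a₂ * I.c₄)) =
      C (IsLocalRing.residue A I.c₄) * X ^ 2 + C (IsLocalRing.residue A (I.a₁ * I.c₄)) * X +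
        C (-(IsLocalRing.residue A (54 * I.b₆ - 3 * I.b₂ * I.b₄ + I.a₂ * I.c₄))) := by
    simp only [Polynomial.map_sub, Polynomial.map_add, Polynomial.map_mul, Polynomial.map_pow,
      Polynomial.map_X, Polynomial.map_C, IsLocalRing.ResidueField.algebraMap_eq, C_neg,
      ← sub_eq_add_neg]
  have heval : ∀ x : IsLocalRing.ResidueField A,
      (C (IsLocalRing.residue A I.c₄) * X ^ 2 + C (IsLocalRing.residue A (I.a₁ * I.c₄)) * X +
        C (-(IsLocalRing.residue A (54 * I.b₆ - 3 * I.b₂ * I.b₄ + I.a₂ * I.c₄)))).eval x =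
      nodePoly (I.map (IsLocalRing.residue A)) x := by
    intro x
    simp only [nodePoly, eval_add, eval_mul, eval_C, eval_pow, eval_X,
      WeierstrassCurve.map_c₄, WeierstrassCurve.map_a₁, WeierstrassCurve.map_a₂,
      WeierstrassCurve.map_b₂, WeierstrassCurve.map_b₄, WeierstrassCurve.map_b₆, map_mul, map_add,
      map_sub, map_ofNat]
    ring
  rw [hmap]
  have hdeg := natDegree_quadratic (b := IsLocalRing.residue A (I.a₁ * I.c₄))
    (c := -(IsLocalRing.residue A (54 * I.b₆ - 3 * I.b₂ * I.b₄ + I.a₂ * I.c₄))) hlc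
  constructor
  · intro hs
    obtain ⟨x, hx⟩ := hs.exists_eval_eq_zero (by
      intro h0
      have := natDegree_eq_of_degree_eq_some (n := 0) (by exact_mod_cast h0)
      omega)
    exact ⟨x, by rw [← heval]; exact hx⟩
  · rintro ⟨x, hx⟩
    rw [← heval] at hx
    exact Splits.of_natDegree_eq_two hdeg hx

theorem split_D (W : WeierstrassCurve A) (D : WeierstrassCurve.VariableChange A) :
    (∃ x : IsLocalRing.ResidueField A, nodePoly ((D • W).map (IsLocalRing.residue A)) x = 0) ↔
    ∃ x : IsLocalRing.ResidueField A, nodePoly (W.map (IsLocalRing.residue A)) x = 0 := by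
  have h1 : (D • W).map (IsLocalRing.residue A) =
      (D.map (IsLocalRing.residue A)) • W.map (IsLocalRing.residue A) :=
    (WeierstrassCurve.map_variableChange _ _ _).symm
  rw [h1]
  set E := D.map (IsLocalRing.residue A)
  set Wk := W.map (IsLocalRing.residue A)
  have hV : ((E.u⁻¹ : (IsLocalRing.ResidueField A)ˣ) : IsLocalRing.ResidueField A) ^ 6 ≠ 0 :=
    pow_ne_zero _ (Units.ne_zero _)
  constructor
  · rintro ⟨x, hx⟩
    rw [nodePoly_smul] at hx
    exact ⟨_, (mul_eq_zero.1 hx).resolve_left hV⟩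
  · rintro ⟨x, hx⟩
    refine ⟨(x - E.s) / (E.u : IsLocalRing.ResidueField A), ?_⟩
    rw [nodePoly_smul]
    have hu : (E.u : IsLocalRing.ResidueField A) ≠ 0 := Units.ne_zero _
    have h2 : (E.u : IsLocalRing.ResidueField A) * ((x - E.s) / E.u) + E.s = x := by
      field_simp
      ring
    rw [h2, hx, mul_zero]

/-- split multiplicative reduction -/
theorem localPoly_split (W : WeierstrassCurve A) (hΔ0 : W.Δ ≠ 0) (hΔ : ¬ IsUnit W.Δ)
    (h4 : IsUnit W.c₄) (C : WeierstrassCurve.VariableChange K)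
    (hs : ∃ x : IsLocalRing.ResidueField A, nodePoly (W.map (IsLocalRing.residue A)) x = 0) :
    (C • W.map (algebraMap A K)).localPolynomial A = 1 - X := by
  obtain ⟨hm, D, hD⟩ := mult_data A W hΔ0 hΔ h4 C
  have h4' : IsUnit (((C • W.map (algebraMap A K)).minimal A).integralModel A).c₄ := by
    rw [← hD]
    obtain ⟨c, hc, h1⟩ := c₄_D D W
    rw [h1]
    exact hc.mul h4
  have hsplit : ((C • W.map (algebraMap A K)).minimal A).HasSplitMultiplicativeReduction A := by
    refine { hm with splitMultiplicativeReduction := ?_ }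
    refine (split_iff A _ h4').2 ?_
    rw [← hD, split_D]
    exact hs
  unfold WeierstrassCurve.localPolynomial
  rw [if_neg hm.not_hasGoodReduction, if_pos hsplit]

/-- nonsplit multiplicative reduction -/
theorem localPoly_nonsplit (W : WeierstrassCurve A) (hΔ0 : W.Δ ≠ 0) (hΔ : ¬ IsUnit W.Δ)
    (h4 : IsUnit W.c₄) (C : WeierstrassCurve.VariableChange K)
    (hs : ¬ ∃ x : IsLocalRing.ResidueField A, nodePoly (W.map (IsLocalRing.residue A)) x = 0) :
    (C • W.map (algebraMap A K)).localPolynomial A = 1 + X := by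
  obtain ⟨hm, D, hD⟩ := mult_data A W hΔ0 hΔ h4 C
  have h4' : IsUnit (((C • W.map (algebraMap A K)).minimal A).integralModel A).c₄ := by
    rw [← hD]
    obtain ⟨c, hc, h1⟩ := c₄_D D W
    rw [h1]
    exact hc.mul h4
  have hsplit : ¬ ((C • W.map (algebraMap A K)).minimal A).HasSplitMultiplicativeReduction A := by
    intro h
    apply hs
    rw [← split_D A W D, hD]
    exact (split_iff A _ h4').1 h.splitMultiplicativeReduction
  unfold WeierstrassCurve.localPolynomial
  rw [if_neg hm.not_hasGoodReduction, if_neg hsplit, if_pos hm]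

/-- additive reduction -/
theorem localPoly_add (W : WeierstrassCurve A) (n : ℕ) (hn0 : 0 < n) (hn : n < 12) (ϖ u : A)
    (hϖ : Irreducible ϖ) (hu : IsUnit u) (hΔ : W.Δ = u * ϖ ^ n)
    (h4 : ¬ IsUnit W.c₄) (C : WeierstrassCurve.VariableChange K) :
    (C • W.map (algebraMap A K)).localPolynomial A = 1 := by
  obtain ⟨T, hT, hTm⟩ := exists_T A (W.map (algebraMap A K)) C
  have hint := isIntegral_map A (K := K) W
  have hval : (IsDiscreteValuationRing.maximalIdeal A).valuation K
      (W.map (algebraMap A K)).Δ = WithZero.exp (-(n : ℤ)) := by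
    rw [WeierstrassCurve.map_Δ, hΔ, map_mul, map_mul, val_algebraMap_unit A _ hu, one_mul,
      map_pow, map_pow, val_irreducible A _ hϖ, ← WithZero.exp_nsmul]
    congr 1
    simp
  have hu := unit_of_lt A (W.map (algebraMap A K)) n hn hval T hTm
  obtain ⟨D, hD⟩ := exists_D A W C T hT hu
  have hΔ' : ¬ IsUnit W.Δ := by
    rw [hΔ]
    intro h
    have h1 := isUnit_of_mul_isUnit_right h
    exact hϖ.not_isUnit ((isUnit_pow_iff hn0.ne').1 h1)
  have hadd : ((C • W.map (algebraMap A K)).minimal A).HasAdditiveReduction A := by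
    refine ⟨?_, ?_⟩
    · rw [← WeierstrassCurve.integralModel_Δ_eq A, ← hD]
      obtain ⟨c, hc, h1⟩ := Δ_D D W
      rw [h1]
      refine (val_int A (W.map (algebraMap A K)) _ (c * W.Δ) rfl).2.2 ?_
      intro h
      exact hΔ' (isUnit_of_mul_isUnit_right h)
    · rw [← WeierstrassCurve.integralModel_c₄_eq A, ← hD]
      obtain ⟨c, hc, h1⟩ := c₄_D D W
      rw [h1]
      refine (val_int A (W.map (algebraMap A K)) _ (c * W.c₄) rfl).2.2 ?_
      intro h
      exact h4 (isUnit_of_mul_isUnit_right h)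
  have hnm : ¬ ((C • W.map (algebraMap A K)).minimal A).HasMultiplicativeReduction A :=
    fun h => hadd.additiveReduction.ne h.multiplicativeReduction
  have hns : ¬ ((C • W.map (algebraMap A K)).minimal A).HasSplitMultiplicativeReduction A :=
    fun h => hnm h.toHasMultiplicativeReduction
  unfold WeierstrassCurve.localPolynomial
  rw [if_neg hadd.not_hasGoodReduction, if_neg hns, if_neg hnm]

end

end GE
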