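import Pool.Agent.MP_9ab903_nt.GE.E2
import Pool.Agent.MP_dfae13_nt.T.TE2
import Pool.Agent.MP_dfae13_nt.T.TC3

set_option autoImplicit false

open Polynomial IsDedekindDomain NumberField ArithmeticFunction
open CM27 CMT
open scoped Classical

/-!
# Euler factors over a number field of a curve with an integral Weierstrass equation over `ℤ`
-/

namespace GE

theorem nodePoly_map {R S : Type} [CommRing R] [CommRing S] (φ : R →+* S)
    (W : WeierstrassCurve R) (x : R) : nodePoly (W.map φ) (φ x) = φ (nodePoly W x) := by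
  simp only [nodePoly, WeierstrassCurve.map_c₄, WeierstrassCurve.map_a₁,
    WeierstrassCurve.map_a₂, WeierstrassCurve.map_b₂, WeierstrassCurve.map_b₄,
    WeierstrassCurve.map_b₆, map_mul, map_add, map_sub, map_pow, map_ofNat]

section
variable (W : WeierstrassCurve ℤ) (F : Type) [Field F] [NumberField F]

/-- the curve over `F` -/
noncomputable def WF : WeierstrassCurve F := W.map (Int.castRingHom F)

variable (v : HeightOneSpectrum (𝓞 F))

/-- the integral equation over the completion -/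
noncomputable def Wv : WeierstrassCurve (v.adicCompletionIntegers F) :=
  W.map (Int.castRingHom (v.adicCompletionIntegers F))

theorem baseChange_WF : (WF W F).baseChange (v.adicCompletion F) =
    (Wv W F v).map (algebraMap (v.adicCompletionIntegers F) (v.adicCompletion F)) := by
  unfold WF Wv WeierstrassCurve.baseChange
  rw [WeierstrassCurve.map_map, WeierstrassCurve.map_map]
  congr 1
  exact Subsingleton.elim _ _

theorem baseChange_WF' : (WF W F).baseChange (v.adicCompletion F) =
    (1 : WeierstrassCurve.VariableChange (v.adicCompletion F)) • (Wv W F v).map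
      (algebraMap (v.adicCompletionIntegers F) (v.adicCompletion F)) := by
  rw [one_smul, baseChange_WF]

/-- the equation over the residue field -/
theorem Wv_residue : (Wv W F v).map (IsLocalRing.residue (v.adicCompletionIntegers F)) =
    W.map (Int.castRingHom (IsLocalRing.ResidueField (v.adicCompletionIntegers F))) := by
  unfold Wv
  rw [WeierstrassCurve.map_map]
  congr 1

variable {F}

/-- integers which are not divisible by `p` are units at `v | p` -/
theorem isUnit_int {p : ℕ} (hp : p.Prime) (hpv : (p : 𝓞 F) ∈ v.asIdeal) (c : ℤ)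
    (hc : ¬ (p : ℤ) ∣ c) : IsUnit (c : v.adicCompletionIntegers F) := by
  have h1 : (c : 𝓞 F) ∉ v.asIdeal := by
    intro h
    have hcop : IsCoprime (p : ℤ) c := by
      rw [Int.isCoprime_iff_gcd_eq_one]
      rcases (Nat.dvd_prime hp).1 (show Int.gcd (p : ℤ) c ∣ p by
        have := Int.gcd_dvd_left (p : ℤ) c
        exact_mod_cast this) with h2 | h2
      · exact h2
      · exfalso
        apply hc
        rw [← h2]
        exact Int.gcd_dvd_right _ _
    obtain ⟨a, b, hab⟩ := hcop
    have h2 : ((a : 𝓞 F)) * p + b * c = 1 := by exact_mod_cast congrArg (Int.cast : ℤ → 𝓞 F) hab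
    have h3 : (1 : 𝓞 F) ∈ v.asIdeal := by
      rw [← h2]
      exact Ideal.add_mem _ (Ideal.mul_mem_left _ _ hpv) (Ideal.mul_mem_left _ _ h)
    exact v.isPrime.ne_top ((Ideal.eq_top_iff_one _).2 h3)
  have h2 := isUnit_completion' F v _ h1
  rwa [map_intCast] at h2

theorem not_isUnit_int {p : ℕ} (hpv : (p : 𝓞 F) ∈ v.asIdeal) (c : ℤ)
    (hc : (p : ℤ) ∣ c) : ¬ IsUnit (c : v.adicCompletionIntegers F) := by
  intro h
  have h1 : (c : 𝓞 F) ∈ v.asIdeal := by
    obtain ⟨d, rfl⟩ := hc
    push_cast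
    exact Ideal.mul_mem_right _ _ hpv
  have h2 : (c : 𝓞 F) ∈ RingHom.ker ((IsLocalRing.residue (v.adicCompletionIntegers F)).comp
      (algebraMap (𝓞 F) (v.adicCompletionIntegers F))) := by
    rw [(residue_completion F v).2]
    exact h1
  rw [RingHom.mem_ker, map_intCast] at h2
  have h3 := (h.map (IsLocalRing.residue (v.adicCompletionIntegers F))).ne_zero
  rw [map_intCast] at h3
  exact h3 h2

theorem cast_ne_zero' (c : ℤ) (hc : c ≠ 0) : (c : v.adicCompletionIntegers F) ≠ 0 := by
  intro h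
  have h1 := c3_val F v (c : 𝓞 F)
  rw [map_intCast, h] at h1
  have h2 : v.intValuation (c : 𝓞 F) = 0 := by
    rw [← h1]
    exact (Valued.v : Valuation (v.adicCompletion F) _).map_zero
  exact v.intValuation_ne_zero _ (by exact_mod_cast hc) h2

/-- the Euler factor at a place of good reduction -/
theorem loc_good {p f : ℕ} (hp : p.Prime) (hf : 0 < f) (hpv : (p : 𝓞 F) ∈ v.asIdeal)
    (hq : Nat.card (𝓞 F ⧸ v.asIdeal) = p ^ f) (hΔ : ¬ (p : ℤ) ∣ W.Δ) (α β : ℂ)
    (hαβ : α * β = p)
    (hpts : ∀ (k : Type) [Field k] [Finite k], Nat.card k = p ^ f →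
      (Nat.card (W.map (Int.castRingHom k)).toAffine.Point : ℂ) = p ^ f + 1 - (α ^ f + β ^ f)) :
    PowerSeries.map (Int.castRingHom ℂ) (loc p (fW F (WF W F) v)) *
      ((1 - (PowerSeries.C α * PowerSeries.X) ^ f) * (1 - (PowerSeries.C β * PowerSeries.X) ^ f))
      = 1 := by
  obtain ⟨hc, hfin⟩ := card_residue F v
  set k := IsLocalRing.ResidueField (v.adicCompletionIntegers F) with hk
  have hkq : Nat.card k = p ^ f := by rw [hc, hq]
  have h1 : (Wv W F v).Δ = ((W.Δ : ℤ) : v.adicCompletionIntegers F) := by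
    unfold Wv
    rw [WeierstrassCurve.map_Δ]
    rfl
  have h2 := localPoly_good (v.adicCompletionIntegers F) (K := v.adicCompletion F) (Wv W F v)
    (by rw [h1]; exact isUnit_int v hp hpv _ hΔ) 1
  rw [← baseChange_WF', Wv_residue] at h2
  have h3 := loc_fW F (WF W F) v hp hf _ _ hkq h2
  have h4 := hpts k hkq
  have h6 : ((((Nat.card k : ℤ) + 1 - Nat.card (W.map (Int.castRingHom k)).toAffine.Point) : ℤ) : ℂ)
      = α ^ f + β ^ f := by
    push_cast
    rw [h4, hkq]
    push_cast
    ring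
  have h7 : ((Nat.card k : ℤ) : ℂ) = α ^ f * β ^ f := by
    rw [hkq, ← mul_pow, hαβ]
    push_cast
    rfl
  rw [h6, h7] at h3
  have h8 : ((1 - (PowerSeries.C α * PowerSeries.X) ^ f) *
      (1 - (PowerSeries.C β * PowerSeries.X) ^ f)) =
      1 - PowerSeries.C (α ^ f + β ^ f) * PowerSeries.X ^ f +
        PowerSeries.C (α ^ f * β ^ f) * (PowerSeries.X ^ f * PowerSeries.X ^ f) := by
    simp only [mul_pow, map_add, map_mul, map_pow]
    ring
  rw [h8, h3]

/-- the Euler factor at a place of split multiplicative reduction -/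
theorem loc_split {p f : ℕ} (hp : p.Prime) (hf : 0 < f) (hpv : (p : 𝓞 F) ∈ v.asIdeal)
    (hq : Nat.card (𝓞 F ⧸ v.asIdeal) = p ^ f) (hΔ0 : W.Δ ≠ 0) (hΔ : (p : ℤ) ∣ W.Δ)
    (h4 : ¬ (p : ℤ) ∣ W.c₄) (x : ℤ) (hx : (p : ℤ) ∣ nodePoly W x) :
    PowerSeries.map (Int.castRingHom ℂ) (loc p (fW F (WF W F) v)) *
      (1 - PowerSeries.X ^ f) = 1 := by
  obtain ⟨hc, hfin⟩ := card_residue F v
  set k := IsLocalRing.ResidueField (v.adicCompletionIntegers F) with hk
  have hkq : Nat.card k = p ^ f := by rw [hc, hq]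
  have h1 : (Wv W F v).Δ = ((W.Δ : ℤ) : v.adicCompletionIntegers F) := by
    unfold Wv
    rw [WeierstrassCurve.map_Δ]
    rfl
  have h1' : (Wv W F v).c₄ = ((W.c₄ : ℤ) : v.adicCompletionIntegers F) := by
    unfold Wv
    rw [WeierstrassCurve.map_c₄]
    rfl
  have hpk : Int.castRingHom k (p : ℤ) = 0 := by
    have h8 : ((p : ℤ) : 𝓞 F) ∈ RingHom.ker ((IsLocalRing.residue (v.adicCompletionIntegers F)).comp
        (algebraMap (𝓞 F) (v.adicCompletionIntegers F))) := by
      rw [(residue_completion F v).2]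
      exact_mod_cast hpv
    rw [RingHom.mem_ker, map_intCast] at h8
    exact h8
  have hroot : nodePoly (W.map (Int.castRingHom k)) (Int.castRingHom k x) = 0 := by
    obtain ⟨c, hc⟩ := hx
    rw [nodePoly_map, hc, map_mul, hpk, zero_mul]
  have h2 := localPoly_split (v.adicCompletionIntegers F) (K := v.adicCompletion F) (Wv W F v)
    (by rw [h1]; exact cast_ne_zero' v _ hΔ0) (by rw [h1]; exact not_isUnit_int v hpv _ hΔ)
    (by rw [h1']; exact isUnit_int v hp hpv _ h4) 1 (by rw [Wv_residue]; exact ⟨_, hroot⟩)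
  rw [← baseChange_WF'] at h2
  have h3 := loc_fW F (WF W F) v hp hf 1 0 hkq (by rw [h2]; simp)
  rw [Int.cast_one, Int.cast_zero, map_one, _root_.map_zero, one_mul, zero_mul, add_zero] at h3
  exact h3

/-- the Euler factor at a place of additive reduction which is not ramified -/
theorem loc_add {p : ℕ} (hp : p.Prime) (hpv : (p : 𝓞 F) ∈ v.asIdeal)
    (hpv2 : (p : 𝓞 F) ∉ v.asIdeal ^ 2) (n : ℕ) (hn0 : 0 < n) (hn : n < 12) (c : ℤ)
    (hc : ¬ (p : ℤ) ∣ c) (hΔ : W.Δ = c * (p : ℤ) ^ n) (h4 : (p : ℤ) ∣ W.c₄) :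
    fW F (WF W F) v = 1 := by
  apply fW_one
  obtain ⟨-, hfin⟩ := card_residue F v
  have hϖ := irreducible_completion' F v _ hpv hpv2
  rw [map_natCast] at hϖ
  have h1 : (Wv W F v).Δ = (c : v.adicCompletionIntegers F) * (p : v.adicCompletionIntegers F) ^ n := by
    unfold Wv
    rw [WeierstrassCurve.map_Δ, hΔ]
    simp
  have h1' : (Wv W F v).c₄ = ((W.c₄ : ℤ) : v.adicCompletionIntegers F) := by
    unfold Wv
    rw [WeierstrassCurve.map_c₄]
    rfl
  rw [baseChange_WF']
  exact localPoly_add (v.adicCompletionIntegers F) (Wv W F v) n hn0 hn _ _ hϖ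
    (isUnit_int v hp hpv _ hc) h1 (by rw [h1']; exact not_isUnit_int v hpv _ h4) 1

end

end GE
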