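import Pool.Agent.MP_9ab903_nt.GE.E3
import Pool.Agent.MP_ae0bd0_nt.CM.F4

set_option autoImplicit false

open Polynomial IsDedekindDomain NumberField ArithmeticFunction
open CM27 CMT
open scoped Classical

/-!
# The `L`-function over an abelian field `F ≤ ℚ(ζ_m)`, `m` squarefree, as a product of twisted
`L`-functions
-/

namespace GE

section
variable (a : ArithmeticFunction ℂ)

/-- the coefficients twisted by the primitive character attached to `χ` -/
noncomputable def twA {m : ℕ} (χ : DirichletCharacter ℂ m) : ArithmeticFunction ℂ :=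
  ⟨fun n => pval χ n * a n, by rw [ArithmeticFunction.map_zero, mul_zero]⟩

theorem twA_apply {m : ℕ} (χ : DirichletCharacter ℂ m) (n : ℕ) : twA a χ n = pval χ n * a n := rfl

theorem isMultiplicative_twA (ha : a.IsMultiplicative) {m : ℕ} (χ : DirichletCharacter ℂ m) :
    (twA a χ).IsMultiplicative := by
  constructor
  · rw [twA_apply, pval_one, ha.1, one_mul]
  · intro x y hxy
    rw [twA_apply, twA_apply, twA_apply, pval_mul, ha.2 hxy]
    ring

theorem loc_twA {m : ℕ} (χ : DirichletCharacter ℂ m) {p : ℕ} (α β : ℂ)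
    (h : ∀ k, a (p ^ k) = ∑ i ∈ Finset.range (k + 1), α ^ i * β ^ (k - i)) :
    loc p (twA a χ) * ((1 - PowerSeries.C (pval χ p) * (PowerSeries.C α * PowerSeries.X)) *
      (1 - PowerSeries.C (pval χ p) * (PowerSeries.C β * PowerSeries.X))) = 1 := by
  have h1 : loc p (twA a χ) = PowerSeries.mk (fun k => (pval χ p * α) ^ k) *
      PowerSeries.mk (fun k => (pval χ p * β) ^ k) := by
    ext k
    rw [coeff_loc, twA_apply, pval_pow, h k, PowerSeries.coeff_mul,
      Finset.Nat.sum_antidiagonal_eq_sum_range_succ_mk, Finset.mul_sum]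
    refine Finset.sum_congr rfl fun i hi => ?_
    rw [PowerSeries.coeff_mk, PowerSeries.coeff_mk, mul_pow, mul_pow]
    have hi' : i ≤ k := Nat.lt_succ_iff.1 (Finset.mem_range.1 hi)
    calc pval χ p ^ k * (α ^ i * β ^ (k - i)) =
        pval χ p ^ (i + (k - i)) * (α ^ i * β ^ (k - i)) := by rw [Nat.add_sub_cancel' hi']
      _ = _ := by rw [pow_add]; ring
  have e1 : PowerSeries.C (pval χ p) * (PowerSeries.C α * PowerSeries.X) =
      PowerSeries.C (pval χ p * α) * PowerSeries.X := by rw [map_mul, mul_assoc]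
  have e2 : PowerSeries.C (pval χ p) * (PowerSeries.C β * PowerSeries.X) =
      PowerSeries.C (pval χ p * β) * PowerSeries.X := by rw [map_mul, mul_assoc]
  rw [h1, e1, e2]
  calc _ = (PowerSeries.mk (fun k => (pval χ p * α) ^ k) *
        (1 - PowerSeries.C (pval χ p * α) * PowerSeries.X)) *
      (PowerSeries.mk (fun k => (pval χ p * β) ^ k) *
        (1 - PowerSeries.C (pval χ p * β) * PowerSeries.X)) := by ring
    _ = 1 := by rw [geom_mul, geom_mul, one_mul]

end

section
variable (a : ArithmeticFunction ℂ) (ha : a.IsMultiplicative) (W : WeierstrassCurve ℤ)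
  (m : ℕ) [NeZero m] (hm : Squarefree m) (M : Type) [Field M] [NumberField M]
  [IsCyclotomicExtension {m} ℚ M] (F : IntermediateField ℚ M)
  (hloc : ∀ p : ℕ, p.Prime → ∃ α β : ℂ,
    (∀ k, a (p ^ k) = ∑ i ∈ Finset.range (k + 1), α ^ i * β ^ (k - i)) ∧
    ∀ (v : HeightOneSpectrum (𝓞 F)) (f : ℕ), 0 < f → (p : 𝓞 F) ∈ v.asIdeal →
      Nat.card (𝓞 F ⧸ v.asIdeal) = p ^ f →
      PowerSeries.map (Int.castRingHom ℂ) (loc p (fW F (WF W F) v)) *
        ((1 - (PowerSeries.C α * PowerSeries.X) ^ f) *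
          (1 - (PowerSeries.C β * PowerSeries.X) ^ f)) = 1)
include ha hm hloc

theorem loc_LCW_eq {p : ℕ} (hp : p.Prime) :
    loc p (LCW F (WF W F)) = loc p (∏ χ ∈ chars m F, twA a χ) := by
  obtain ⟨f, g, hf, hfin, hcard, hres, hprod⟩ := split_all m hm M F p hp
  rw [loc_LCW, loc_LFunctionW F (WF W F) hp hfin.toFinset (fun v hv => by simpa using hv),
    loc_prod hp, map_prod]
  obtain ⟨α, β, hpsi, hv⟩ := hloc p hp
  set D : PowerSeries ℂ := (1 - (PowerSeries.C α * PowerSeries.X) ^ f) *
    (1 - (PowerSeries.C β * PowerSeries.X) ^ f) with hD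
  have h1 : (∏ v ∈ hfin.toFinset, PowerSeries.map (Int.castRingHom ℂ)
      (loc p (fW F (WF W F) v))) * D ^ g = 1 := by
    have hc : hfin.toFinset.card = g := by
      rw [← hcard, Set.ncard_eq_toFinset_card _ hfin]
    rw [← hc, ← Finset.prod_const, ← Finset.prod_mul_distrib]
    apply Finset.prod_eq_one
    intro v hv'
    have hv1 : (p : 𝓞 F) ∈ v.asIdeal := by simpa using hv'
    exact hv v f hf hv1 (hres v hv1)
  have h2 : (∏ χ ∈ chars m F, loc p (twA a χ)) * D ^ g = 1 := by
    rw [hD, mul_pow, ← prod_subst (chars m F) (fun χ => pval χ p) f g hprod,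
      ← prod_subst (chars m F) (fun χ => pval χ p) f g hprod, ← Finset.prod_mul_distrib,
      ← Finset.prod_mul_distrib]
    apply Finset.prod_eq_one
    intro χ _
    exact loc_twA a χ α β hpsi
  calc _ = (∏ v ∈ hfin.toFinset, PowerSeries.map (Int.castRingHom ℂ)
        (loc p (fW F (WF W F) v))) * ((∏ χ ∈ chars m F, loc p (twA a χ)) * D ^ g) := by
        rw [h2, mul_one]
    _ = ((∏ v ∈ hfin.toFinset, PowerSeries.map (Int.castRingHom ℂ)
        (loc p (fW F (WF W F) v))) * D ^ g) * (∏ χ ∈ chars m F, loc p (twA a χ)) := by ring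
    _ = _ := by rw [h1, one_mul]

/-- The `L`-function of `W` over `F` is the product of the `L`-functions of `a` twisted by the
characters of `F`. -/
theorem LCW_eq : LCW F (WF W F) = ∏ χ ∈ chars m F, twA a χ := by
  rw [ArithmeticFunction.IsMultiplicative.eq_iff_eq_on_prime_powers _
    (isMultiplicative_LCW F (WF W F)) _
    (isMultiplicative_finsetProd _ _ fun χ _ => isMultiplicative_twA a ha χ)]
  intro p i hp
  rw [← coeff_loc, ← coeff_loc, loc_LCW_eq a ha W m hm M F hloc hp]

end

end GE
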