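import Pool.Agent.MP_dfae13_nt.T.J2
import Pool.Agent.MP_ae0bd0_nt.CM.C1

set_option autoImplicit false

open Polynomial IsDedekindDomain
open CM27 CMT
open scoped Classical

/-!
# Local Euler factors of a curve with an integral Weierstrass equation over a discrete valuation ring
-/

namespace GE

section
variable (A : Type) [CommRing A] [IsDomain A] [IsDiscreteValuationRing A]
  {K : Type} [Field K] [Algebra A K] [IsFractionRing A K]

/-- A change of variables with a unit `u` between integral equations is integral. -/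
theorem lift (W I : WeierstrassCurve A) (T : WeierstrassCurve.VariableChange K)
    (hI : T • W.map (algebraMap A K) = I.map (algebraMap A K)) (u : Aˣ)
    (hu : (T.u : K) = algebraMap A K u) :
    ∃ D : WeierstrassCurve.VariableChange A, D • W = I := by
  have hinj : Function.Injective (algebraMap A K) := IsFractionRing.injective A K
  have huu : algebraMap A K (u : A) * algebraMap A K ((u⁻¹ : Aˣ) : A) = 1 := by
    rw [← map_mul]; simp
  have huinv : ((T.u⁻¹ : Kˣ) : K) = algebraMap A K ((u⁻¹ : Aˣ) : A) := by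
    rw [Units.val_inv_eq_inv_val, hu]
    exact inv_eq_of_mul_eq_one_right huu
  set φ := algebraMap A K with hφ
  set U := φ (u : A) with hU
  set V := φ ((u⁻¹ : Aˣ) : A) with hV
  have hb6 : V ^ 6 * (φ W.b₆ + 2 * T.r * φ W.b₄ + T.r ^ 2 * φ W.b₂ + 4 * T.r ^ 3) = φ I.b₆ := by
    have h : (T • W.map φ).b₆ = φ I.b₆ := by rw [hI]; simp
    rw [← h, WeierstrassCurve.variableChange_b₆, huinv]
    simp only [WeierstrassCurve.map_b₂, WeierstrassCurve.map_b₄, WeierstrassCurve.map_b₆]
  have hb8 : V ^ 8 * (φ W.b₈ + 3 * T.r * φ W.b₆ + 3 * T.r ^ 2 * φ W.b₄ + T.r ^ 3 * φ W.b₂ +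
      3 * T.r ^ 4) = φ I.b₈ := by
    have h : (T • W.map φ).b₈ = φ I.b₈ := by rw [hI]; simp
    rw [← h, WeierstrassCurve.variableChange_b₈, huinv]
    simp only [WeierstrassCurve.map_b₂, WeierstrassCurve.map_b₄, WeierstrassCurve.map_b₆,
      WeierstrassCurve.map_b₈]
  have ha2 : V ^ 2 * (φ W.a₂ - T.s * φ W.a₁ + 3 * T.r - T.s ^ 2) = φ I.a₂ := by
    have h : (T • W.map φ).a₂ = φ I.a₂ := by rw [hI]; simp
    rw [← h, WeierstrassCurve.variableChange_a₂, huinv]
    simp only [WeierstrassCurve.map_a₁, WeierstrassCurve.map_a₂]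
  have ha6 : V ^ 6 * (φ W.a₆ + T.r * φ W.a₄ + T.r ^ 2 * φ W.a₂ + T.r ^ 3 - T.t * φ W.a₃ - T.t ^ 2
      - T.r * T.t * φ W.a₁) = φ I.a₆ := by
    have h : (T • W.map φ).a₆ = φ I.a₆ := by rw [hI]; simp
    rw [← h, WeierstrassCurve.variableChange_a₆, huinv]
    simp only [WeierstrassCurve.map_a₁, WeierstrassCurve.map_a₂, WeierstrassCurve.map_a₃,
      WeierstrassCurve.map_a₄, WeierstrassCurve.map_a₆]
  have hu2 : U ^ 2 * V ^ 2 = 1 := by rw [← mul_pow, huu, one_pow]
  have hu6 : U ^ 6 * V ^ 6 = 1 := by rw [← mul_pow, huu, one_pow]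
  have hu8 : U ^ 8 * V ^ 8 = 1 := by rw [← mul_pow, huu, one_pow]
  have hb6' : φ W.b₆ + 2 * T.r * φ W.b₄ + T.r ^ 2 * φ W.b₂ + 4 * T.r ^ 3 = U ^ 6 * φ I.b₆ := by
    rw [← hb6, ← mul_assoc, hu6, one_mul]
  have hb8' : φ W.b₈ + 3 * T.r * φ W.b₆ + 3 * T.r ^ 2 * φ W.b₄ + T.r ^ 3 * φ W.b₂ +
      3 * T.r ^ 4 = U ^ 8 * φ I.b₈ := by
    rw [← hb8, ← mul_assoc, hu8, one_mul]
  have ha2' : φ W.a₂ - T.s * φ W.a₁ + 3 * T.r - T.s ^ 2 = U ^ 2 * φ I.a₂ := by
    rw [← ha2, ← mul_assoc, hu2, one_mul]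
  have ha6' : φ W.a₆ + T.r * φ W.a₄ + T.r ^ 2 * φ W.a₂ + T.r ^ 3 - T.t * φ W.a₃ - T.t ^ 2
      - T.r * T.t * φ W.a₁ = U ^ 6 * φ I.a₆ := by
    rw [← ha6, ← mul_assoc, hu6, one_mul]
  have hr : ∃ r : A, φ r = T.r := by
    refine c1_root A K (X ^ 4 - C W.b₄ * X ^ 2 - C (2 * W.b₆ + (u : A) ^ 6 * I.b₆) * X -
      C (W.b₈ - (u : A) ^ 8 * I.b₈)) ?_ _ ?_
    · monicity!
    · simp only [eval₂_sub, eval₂_pow, eval₂_mul, eval₂_X, eval₂_C]
      simp only [map_mul, map_pow, map_add, map_sub, map_ofNat]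
      linear_combination T.r * hb6' - hb8'
  obtain ⟨r, hr⟩ := hr
  have hs : ∃ s : A, φ s = T.s := by
    refine c1_root A K (X ^ 2 + C W.a₁ * X - C (W.a₂ + 3 * r - (u : A) ^ 2 * I.a₂)) ?_ _ ?_
    · monicity!
    · simp only [eval₂_sub, eval₂_add, eval₂_pow, eval₂_mul, eval₂_X, eval₂_C]
      simp only [map_mul, map_pow, map_add, map_sub, map_ofNat]
      rw [hr]
      linear_combination -ha2'
  obtain ⟨s, hs⟩ := hs
  have ht : ∃ t : A, φ t = T.t := by
    refine c1_root A K (X ^ 2 + C (W.a₃ + r * W.a₁) * X -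
      C (W.a₆ + r * W.a₄ + r ^ 2 * W.a₂ + r ^ 3 - (u : A) ^ 6 * I.a₆)) ?_ _ ?_
    · monicity!
    · simp only [eval₂_sub, eval₂_add, eval₂_pow, eval₂_mul, eval₂_X, eval₂_C]
      simp only [map_mul, map_pow, map_add, map_sub]
      rw [hr]
      linear_combination -ha6'
  obtain ⟨t, ht⟩ := ht
  refine ⟨⟨u, r, s, t⟩, ?_⟩
  apply WeierstrassCurve.map_injective hinj
  show (_ • W).map (algebraMap A K) = I.map (algebraMap A K)
  rw [← hI, ← WeierstrassCurve.map_variableChange]
  congr 1
  ext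
  · exact hu.symm
  · exact hr
  · exact hs
  · exact ht

/-- a minimal equation, as a change of variables of `W` -/
theorem exists_T (W : WeierstrassCurve K) (C : WeierstrassCurve.VariableChange K) :
    ∃ T : WeierstrassCurve.VariableChange K, (C • W).minimal A = T • W ∧
      WeierstrassCurve.IsMinimal A (T • W) := by
  refine ⟨((C • W).exists_isMinimal A).choose * C, ?_, ?_⟩
  · rw [mul_smul]
    rfl
  · rw [mul_smul]
    exact ((C • W).exists_isMinimal A).choose_spec

theorem isIntegral_map (W : WeierstrassCurve A) :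
    WeierstrassCurve.IsIntegral A (W.map (algebraMap A K)) := ⟨⟨W, rfl⟩⟩

/-- If `v(c₄) = 0` then the change of variables to a minimal equation has a unit `u`. -/
theorem unit_of_c₄ (W : WeierstrassCurve K) [hW : WeierstrassCurve.IsIntegral A W]
    (hΔ : W.Δ ≠ 0)
    (h4 : (IsDiscreteValuationRing.maximalIdeal A).valuation K W.c₄ = 1)
    (T : WeierstrassCurve.VariableChange K) (hT : WeierstrassCurve.IsMinimal A (T • W)) :
    (IsDiscreteValuationRing.maximalIdeal A).valuation K (T.u : K) = 1 := by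
  set w := (IsDiscreteValuationRing.maximalIdeal A).valuation K with hw
  have hu0 : w (T.u : K) ≠ 0 := by
    rw [Valuation.ne_zero_iff]
    exact Units.ne_zero _
  have hwΔ : w W.Δ ≠ 0 := by
    rw [Valuation.ne_zero_iff]
    exact hΔ
  -- `u` is not in the maximal ideal
  have hle : w ((T.u⁻¹ : Kˣ) : K) ≤ 1 := by
    have h1 : w (T • W).c₄ ≤ 1 := by
      have h2 := WeierstrassCurve.integralModel_c₄_eq A (T • W)
      rw [← h2]
      exact HeightOneSpectrum.valuation_le_one _ _
    rw [WeierstrassCurve.variableChange_c₄, map_mul, h4, mul_one, map_pow] at h1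
    exact (pow_le_one_iff (by norm_num)).1 h1
  have hge : 1 ≤ w ((T.u⁻¹ : Kˣ) : K) := by
    have h1 := hT.val_Δ_maximal
    have hinv : T⁻¹ • (T • W) = W := inv_smul_smul T W
    have h2 := h1.2 (j := T⁻¹)
      (by show WeierstrassCurve.IsIntegral A (T⁻¹ • (T • W)); rw [hinv]; exact hW)
    have e1 : ((WeierstrassCurve.valuation_Δ_aux A ((1 : WeierstrassCurve.VariableChange K) •
        (T • W)) : { v : WithZero (Multiplicative ℤ) // v ≤ 1 }) : WithZero (Multiplicative ℤ)) =
        w (T • W).Δ := by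
      rw [one_smul]
      exact WeierstrassCurve.valuation_Δ_aux_eq_of_isIntegral A _
    have e2 : ((WeierstrassCurve.valuation_Δ_aux A (T⁻¹ • (T • W)) :
        { v : WithZero (Multiplicative ℤ) // v ≤ 1 }) : WithZero (Multiplicative ℤ)) = w W.Δ := by
      rw [hinv, WeierstrassCurve.valuation_Δ_aux_eq_of_isIntegral A _]
    by_contra hlt
    push Not at hlt
    have h3 : w (T • W).Δ < w W.Δ := by
      rw [WeierstrassCurve.variableChange_Δ, map_mul, map_pow]
      have h5 : w ((T.u⁻¹ : Kˣ) : K) ^ 12 < 1 := pow_lt_one₀ zero_le hlt (by norm_num)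
      calc w ((T.u⁻¹ : Kˣ) : K) ^ 12 * w W.Δ < 1 * w W.Δ :=
            mul_lt_mul_of_pos_right h5 (zero_lt_iff.2 hwΔ)
        _ = w W.Δ := one_mul _
    have h4 : (WeierstrassCurve.valuation_Δ_aux A ((1 : WeierstrassCurve.VariableChange K) •
        (T • W))) ≤ (WeierstrassCurve.valuation_Δ_aux A (T⁻¹ • (T • W))) := by
      rw [← Subtype.coe_le_coe, e1, e2]
      exact h3.le
    have h5 := h2 h4
    rw [← Subtype.coe_le_coe, e1] at h5
    have h6 : w W.Δ ≤ w (T • W).Δ := by
      rw [← e2]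
      exact h5
    exact absurd h3 (not_lt.2 h6)
  have h1 := le_antisymm hle hge
  rw [Units.val_inv_eq_inv_val, map_inv₀] at h1
  exact inv_eq_one.1 h1

/-- The integral model of the minimal equation is an integral change of variables of `W`. -/
theorem exists_D (W : WeierstrassCurve A) (C T : WeierstrassCurve.VariableChange K)
    (hT : (C • W.map (algebraMap A K)).minimal A = T • W.map (algebraMap A K))
    (hu : (IsDiscreteValuationRing.maximalIdeal A).valuation K (T.u : K) = 1) :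
    ∃ D : WeierstrassCurve.VariableChange A,
      D • W = ((C • W.map (algebraMap A K)).minimal A).integralModel A := by
  obtain ⟨u, hu'⟩ := exists_u A T hu
  refine lift A W _ T ?_ u hu'
  rw [← hT]
  exact (WeierstrassCurve.baseChange_integralModel_eq A
    ((C • W.map (algebraMap A K)).minimal A)).symm

theorem Δ_D {R : Type} [CommRing R] (D : WeierstrassCurve.VariableChange R)
    (W : WeierstrassCurve R) : ∃ c : R, IsUnit c ∧ (D • W).Δ = c * W.Δ :=
  ⟨((D.u⁻¹ : Rˣ) : R) ^ 12, (Units.isUnit _).pow 12, WeierstrassCurve.variableChange_Δ _ _⟩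

theorem c₄_D {R : Type} [CommRing R] (D : WeierstrassCurve.VariableChange R)
    (W : WeierstrassCurve R) : ∃ c : R, IsUnit c ∧ (D • W).c₄ = c * W.c₄ :=
  ⟨((D.u⁻¹ : Rˣ) : R) ^ 4, (Units.isUnit _).pow 4, WeierstrassCurve.variableChange_c₄ _ _⟩

theorem val_int (W : WeierstrassCurve K) [WeierstrassCurve.IsIntegral A W] (x : K) (y : A)
    (h : algebraMap A K y = x) :
    ((IsDiscreteValuationRing.maximalIdeal A).valuation K x = 1 ↔ IsUnit y) ∧
    ((IsDiscreteValuationRing.maximalIdeal A).valuation K x < 1 ↔ ¬ IsUnit y) := by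
  subst h
  have h1 : IsUnit y ↔ y ∉ (IsDiscreteValuationRing.maximalIdeal A).asIdeal := by
    change IsUnit y ↔ y ∉ IsLocalRing.maximalIdeal A
    rw [IsLocalRing.mem_maximalIdeal]
    simp
  constructor
  · rw [HeightOneSpectrum.valuation_eq_one_iff_notMem, h1]
  · rw [HeightOneSpectrum.valuation_lt_one_iff_mem, h1, not_not]

variable [Finite (IsLocalRing.ResidueField A)]

/-- good reduction -/
theorem localPoly_good (W : WeierstrassCurve A) (hΔ : IsUnit W.Δ)
    (C : WeierstrassCurve.VariableChange K) :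
    (C • W.map (algebraMap A K)).localPolynomial A =
      1 - Polynomial.C ((Nat.card (IsLocalRing.ResidueField A) : ℤ) + 1 -
        Nat.card (W.map (IsLocalRing.residue A)).toAffine.Point) * X
      + Polynomial.C (Nat.card (IsLocalRing.ResidueField A) : ℤ) * X ^ 2 := by
  obtain ⟨T, hT, hTm⟩ := exists_T A (W.map (algebraMap A K)) C
  have hint := isIntegral_map A (K := K) W
  have hval : (IsDiscreteValuationRing.maximalIdeal A).valuation K
      (W.map (algebraMap A K)).Δ = 1 := by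
    rw [WeierstrassCurve.map_Δ]
    exact val_algebraMap_unit A _ hΔ
  have hu := unit_of_lt A (W.map (algebraMap A K)) 0 (by norm_num) (by rw [hval]; simp) T hTm
  obtain ⟨D, hD⟩ := exists_D A W C T hT hu
  have hgood : WeierstrassCurve.HasGoodReduction A ((C • W.map (algebraMap A K)).minimal A) := by
    refine ⟨?_⟩
    rw [← WeierstrassCurve.integralModel_Δ_eq A, ← hD]
    obtain ⟨c, hc, h1⟩ := Δ_D D W
    rw [h1]
    exact val_algebraMap_unit A _ (hc.mul hΔ)
  have hred : ((C • W.map (algebraMap A K)).minimal A).reduction A =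
      (D.map (IsLocalRing.residue A)) • W.map (IsLocalRing.residue A) := by
    rw [WeierstrassCurve.reduction, ← hD, ← WeierstrassCurve.map_variableChange]
  have hΔκ : (W.map (IsLocalRing.residue A)).Δ ≠ 0 := by
    rw [WeierstrassCurve.map_Δ]
    exact (hΔ.map (IsLocalRing.residue A)).ne_zero
  have hcard : Nat.card (((C • W.map (algebraMap A K)).minimal A).reduction A).toAffine.Point =
      Nat.card (W.map (IsLocalRing.residue A)).toAffine.Point := by
    rw [hred]
    exact c1_card_variableChange _ _ hΔκ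
  unfold WeierstrassCurve.localPolynomial
  rw [if_pos hgood, hcard]

end

end GE
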